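import Mathlib

set_option autoImplicit false

namespace Pool.Agent.Results.MP_db5ef1_al.NoFiniteBasis

/-- Terms in the ring signature with addition, negation, zero and multiplication. -/
inductive Term : Type
  | var : ℕ → Term
  | zero : Term
  | add : Term → Term → Term
  | neg : Term → Term
  | mul : Term → Term → Term

/-- Value of a term in a not necessarily associative ring. -/
def Term.eval {A : Type} [NonUnitalNonAssocRing A] (v : ℕ → A) : Term → A
  | .var i => v i
  | .zero => 0
  | .add s t => s.eval v + t.eval v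
  | .neg s => - s.eval v
  | .mul s t => s.eval v * t.eval v

/-- A quasi-identity: finitely many premises and one conclusion, all equations of terms. -/
structure QuasiId : Type where
  prem : List (Term × Term)
  concl : Term × Term

/-- The quasi-identity holds in `A`. -/
def Holds (A : Type) [NonUnitalNonAssocRing A] (σ : QuasiId) : Prop :=
  ∀ v : ℕ → A, (∀ e ∈ σ.prem, e.1.eval v = e.2.eval v) → σ.concl.1.eval v = σ.concl.2.eval v

/-- `S` is a basis of quasi-identities of `A` (relative to the axioms of rings). -/
def IsBasis (A : Type) [NonUnitalNonAssocRing A] (S : Set QuasiId) : Prop :=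
  (∀ σ ∈ S, Holds A σ) ∧ ∀ τ : QuasiId, Holds A τ →
    ∀ (B : Type) [NonUnitalNonAssocRing B], (∀ σ ∈ S, Holds B σ) → Holds B τ

/-- `A` has a finite basis of quasi-identities. -/
def HasFiniteBasis (A : Type) [NonUnitalNonAssocRing A] : Prop :=
  ∃ S : Set QuasiId, S.Finite ∧ IsBasis A S

/-- Alternative rings. -/
def IsAlternative (A : Type) [NonUnitalNonAssocRing A] : Prop :=
  ∀ x y : A, (x * x) * y = x * (x * y) ∧ (y * x) * x = y * (x * x)

/-- Jordan rings. -/
def IsJordan (A : Type) [NonUnitalNonAssocRing A] : Prop :=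
  ∀ x y : A, x * y = y * x ∧ ((x * x) * y) * x = (x * x) * (y * x)

/-! ### The ring R -/

/-- The ring of order nine: pairs with product `(a, b) (c, d) = (0, a c)`. -/
def R : Type := ZMod 3 × ZMod 3

instance : AddCommGroup R := inferInstanceAs (AddCommGroup (ZMod 3 × ZMod 3))
instance : Finite R := inferInstanceAs (Finite (ZMod 3 × ZMod 3))
instance : Mul R := ⟨fun x y => ((0 : ZMod 3), x.1 * y.1)⟩

theorem R_mul (x y : R) : x * y = ((0 : ZMod 3), x.1 * y.1) := rfl
theorem R_ext {x y : R} (h1 : x.1 = y.1) (h2 : x.2 = y.2) : x = y := Prod.ext h1 h2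
theorem R_add1 (x y : R) : (x + y).1 = x.1 + y.1 := rfl
theorem R_add2 (x y : R) : (x + y).2 = x.2 + y.2 := rfl
theorem R_zero1 : (0 : R).1 = 0 := rfl
theorem R_zero2 : (0 : R).2 = 0 := rfl

instance : NonUnitalNonAssocRing R :=
  { (inferInstance : AddCommGroup R), (inferInstance : Mul R) with
    left_distrib := by
      intro a b c
      apply R_ext
      · rw [R_add1]; simp [R_mul]
      · rw [R_add2]; simp only [R_mul, R_add1]; ring
    right_distrib := by
      intro a b c
      apply R_ext
      · rw [R_add1]; simp [R_mul]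
      · rw [R_add2]; simp only [R_mul, R_add1]; ring
    zero_mul := by
      intro a
      apply R_ext
      · rfl
      · simp only [R_mul, R_zero1, R_zero2]; ring
    mul_zero := by
      intro a
      apply R_ext
      · rfl
      · simp only [R_mul, R_zero1, R_zero2]; ring }

/-! ### The rings B -/

section B

variable (F : Type) [Field F] [CharP F 3] (r : ℕ)

/-- The underlying additive group `F × F ^ r`. -/
def B : Type := F × (Fin r → F)

instance : AddCommGroup (B F r) := inferInstanceAs (AddCommGroup (F × (Fin r → F)))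

variable {F}

/-- The symmetric biadditive product with values in `F ^ r`. -/
def st (u v : F) : Fin r → F := fun l => u * v ^ 3 ^ (l : ℕ) + u ^ 3 ^ (l : ℕ) * v

omit [CharP F 3] in
theorem st_comm (u v : F) : st r u v = st r v u := by
  funext l; simp only [st]; ring

theorem st_add (u v w : F) : st r u (v + w) = st r u v + st r u w := by
  funext l
  simp only [st, Pi.add_apply]
  rw [add_pow_char_pow]
  ring

theorem add_st (u v w : F) : st r (u + v) w = st r u w + st r v w := by
  rw [st_comm, st_add, st_comm r w u, st_comm r w v]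

omit [CharP F 3] in
theorem st_zero (u : F) : st r u 0 = 0 := by
  funext l
  simp [st]

omit [CharP F 3] in
theorem zero_st (u : F) : st r 0 u = 0 := by
  rw [st_comm, st_zero]

variable {r}

instance : Mul (B F r) := ⟨fun x y => ((0 : F), st r x.1 y.1)⟩

/-- The element with the given components. -/
def mkB (u : F) (w : Fin r → F) : B F r := (u, w)

omit [CharP F 3] in
theorem B_mul (x y : B F r) : x * y = ((0 : F), st r x.1 y.1) := rfl
omit [CharP F 3] in
theorem B_mul1 (x y : B F r) : (x * y).1 = 0 := rfl
omit [CharP F 3] in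
theorem B_mul2 (x y : B F r) : (x * y).2 = st r x.1 y.1 := rfl
omit [CharP F 3] in
theorem B_ext {x y : B F r} (h1 : x.1 = y.1) (h2 : x.2 = y.2) : x = y := Prod.ext h1 h2
omit [CharP F 3] in
theorem B_add1 (x y : B F r) : (x + y).1 = x.1 + y.1 := rfl
omit [CharP F 3] in
theorem B_add2 (x y : B F r) : (x + y).2 = x.2 + y.2 := rfl
omit [CharP F 3] in
theorem B_neg1 (x : B F r) : (-x).1 = - x.1 := rfl
omit [CharP F 3] in
theorem B_zero1 : (0 : B F r).1 = 0 := rfl
omit [CharP F 3] in
theorem B_zero2 : (0 : B F r).2 = 0 := rfl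

instance : NonUnitalNonAssocRing (B F r) :=
  { (inferInstance : AddCommGroup (B F r)), (inferInstance : Mul (B F r)) with
    left_distrib := by
      intro a b c
      apply B_ext
      · simp only [B_add1, B_mul1, add_zero]
      · simp only [B_add2, B_mul2, B_add1, st_add]
    right_distrib := by
      intro a b c
      apply B_ext
      · simp only [B_add1, B_mul1, add_zero]
      · simp only [B_add2, B_mul2, B_add1, add_st]
    zero_mul := by
      intro a
      apply B_ext
      · rfl
      · simp only [B_mul2, B_zero1, B_zero2, zero_st]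
    mul_zero := by
      intro a
      apply B_ext
      · rfl
      · simp only [B_mul2, B_zero1, B_zero2, st_zero] }

end B

/-! ### Linearised polynomials -/

section Lin

variable {F : Type} [Field F] [Algebra (ZMod 3) F]

/-- The additive polynomial with coefficients `c`. -/
noncomputable def lin (m : ℕ) (c : ℕ → F) : F →ₗ[ZMod 3] F :=
  haveI : CharP F 3 := charP_of_injective_algebraMap (algebraMap (ZMod 3) F).injective 3
  AddMonoidHom.toZModLinearMap 3
    { toFun := fun x => ∑ l ∈ Finset.range m, c l * x ^ 3 ^ l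
      map_zero' := by simp
      map_add' := by
        intro x y
        rw [← Finset.sum_add_distrib]
        apply Finset.sum_congr rfl
        intro l _
        rw [add_pow_char_pow]
        ring }

theorem lin_apply (m : ℕ) (c : ℕ → F) (x : F) :
    lin m c x = ∑ l ∈ Finset.range m, c l * x ^ 3 ^ l := rfl

open Polynomial in
/-- A nonzero additive polynomial of low degree has few zeros. -/
theorem lin_zero {m : ℕ} (c : ℕ → F) (U : Submodule (ZMod 3) F) [Finite U]
    (hU : 3 ^ (m - 1) < Nat.card U) (h : ∀ u ∈ U, lin m c u = 0) : ∀ l < m, c l = 0 := by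
  classical
  intro l hl
  have hm : 1 ≤ m := by omega
  set f : F[X] := ∑ l ∈ Finset.range m, C (c l) * X ^ 3 ^ l with hf
  have hdeg : f.natDegree ≤ 3 ^ (m - 1) := by
    rw [hf]
    apply natDegree_sum_le_of_forall_le
    intro i hi
    have hi' : i ≤ m - 1 := by
      have := Finset.mem_range.1 hi
      omega
    refine (natDegree_C_mul_X_pow_le _ _).trans ?_
    exact Nat.pow_le_pow_right (by norm_num) hi'
  have hf0 : f = 0 := by
    by_contra hne
    have hroots : (U : Set F).Finite := Set.toFinite _
    have hsub : hroots.toFinset ⊆ f.roots.toFinset := by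
      intro u hu
      rw [Set.Finite.mem_toFinset] at hu
      rw [Multiset.mem_toFinset, mem_roots hne, IsRoot.def, hf, eval_finsetSum]
      have := h u hu
      rw [lin_apply] at this
      simpa using this
    have h1 : Nat.card U ≤ f.natDegree := by
      calc Nat.card U = hroots.toFinset.card := by
            rw [← Set.ncard_eq_toFinset_card _ hroots]; rfl
        _ ≤ f.roots.toFinset.card := Finset.card_le_card hsub
        _ ≤ Multiset.card f.roots := Multiset.toFinset_card_le _
        _ ≤ f.natDegree := card_roots' f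
    omega
  have hco : f.coeff (3 ^ l) = c l := by
    rw [hf, finsetSum_coeff, Finset.sum_eq_single l]
    · simp
    · intro b _ hb
      rw [coeff_C_mul_X_pow, if_neg]
      intro heq
      exact hb (Nat.pow_right_injective (le_refl 2 |>.trans (by norm_num)) heq).symm
    · intro h'
      exact absurd (Finset.mem_range.2 hl) h'
  rw [← hco, hf0, coeff_zero]


theorem exists_lin {m : ℕ} (U : Submodule (ZMod 3) F) (e : Module.Basis (Fin m) (ZMod 3) U)
    (g : Fin m → F) : ∃ c : ℕ → F, ∀ j, lin m c (e j : F) = g j := by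
  classical
  set A : Matrix (Fin m) (Fin m) F := Matrix.of fun j l => (e j : F) ^ 3 ^ (l : ℕ) with hA
  have key : ∀ c : Fin m → F, ∀ j,
      lin m (fun l => if h : l < m then c ⟨l, h⟩ else 0) (e j : F) = A.mulVec c j := by
    intro c j
    rw [lin_apply, Finset.sum_range, Matrix.mulVec, dotProduct]
    apply Finset.sum_congr rfl
    intro l _
    simp [hA, mul_comm]
  have hinj : Function.Injective (Matrix.mulVecLin A) := by
    rw [← LinearMap.ker_eq_bot, LinearMap.ker_eq_bot']
    intro c hc
    rcases Nat.eq_zero_or_pos m with hm | hm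
    · subst hm
      exact Subsingleton.elim _ _
    · have : Module.Finite (ZMod 3) U := Module.Finite.of_basis e
      have : Finite U := Module.finite_of_finite (ZMod 3)
      have hcard : Nat.card U = 3 ^ m := by
        rw [Module.natCard_eq_pow_finrank (K := ZMod 3), Module.finrank_eq_card_basis e]
        simp
      have h0 := lin_zero (m := m) (fun l => if h : l < m then c ⟨l, h⟩ else 0) U
        (by rw [hcard]; exact Nat.pow_lt_pow_right (by norm_num) (by omega))
        (by
          intro u hu
          have hlin : (lin m (fun l => if h : l < m then c ⟨l, h⟩ else 0)).comp U.subtype = 0 := by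
            apply e.ext
            intro j
            have := key c j
            rw [LinearMap.comp_apply, Submodule.subtype_apply, this]
            have h2 := congrFun hc j
            simpa using h2
          exact LinearMap.congr_fun hlin ⟨u, hu⟩)
      funext l
      have := h0 l l.2
      simpa using this
  have hsurj : Function.Surjective (Matrix.mulVecLin A) :=
    LinearMap.injective_iff_surjective.1 hinj
  obtain ⟨c, hc⟩ := hsurj g
  refine ⟨fun l => if h : l < m then c ⟨l, h⟩ else 0, fun j => ?_⟩
  rw [key]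
  exact congrFun hc j

/-- Every functional on a small subspace is given by an additive polynomial of low degree. -/
theorem exists_repr {m r : ℕ} (hmr : m ≤ r) (U : Submodule (ZMod 3) F)
    (e : Module.Basis (Fin m) (ZMod 3) U) (M : U →ₗ[ZMod 3] ZMod 3) :
    ∃ c : Fin r → F, ∀ u : U, ∑ l, c l * (u : F) ^ 3 ^ (l : ℕ) = algebraMap (ZMod 3) F (M u) := by
  obtain ⟨c, hc⟩ := exists_lin U e (fun j => algebraMap (ZMod 3) F (M (e j)))
  refine ⟨fun l => if (l : ℕ) < m then c l else 0, fun u => ?_⟩
  have h1 : (lin m c).comp U.subtype = (Algebra.linearMap (ZMod 3) F).comp M := by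
    apply e.ext
    intro j
    rw [LinearMap.comp_apply, Submodule.subtype_apply, hc j]
    rfl
  have h2 := LinearMap.congr_fun h1 u
  rw [LinearMap.comp_apply, Submodule.subtype_apply, lin_apply] at h2
  rw [LinearMap.comp_apply, Algebra.linearMap_apply] at h2
  rw [← h2, ← Finset.sum_range (fun l => (if l < m then c l else 0) * (u : F) ^ 3 ^ l)]
  have h3 : Finset.range m ⊆ Finset.range r := by
    intro i hi
    rw [Finset.mem_range] at *
    omega
  rw [← Finset.sum_subset h3]
  · apply Finset.sum_congr rfl
    intro i hi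
    rw [if_pos (Finset.mem_range.1 hi)]
  · intro i _ hi
    rw [if_neg (fun h => hi (Finset.mem_range.2 h)), zero_mul]


/-- The iterated Frobenius map as a linear map over the prime field. -/
noncomputable def fr (l : ℕ) : F →ₗ[ZMod 3] F := lin (l + 1) (Pi.single l 1)

theorem fr_apply (l : ℕ) (x : F) : fr l x = x ^ 3 ^ l := by
  rw [fr, lin_apply, Finset.sum_eq_single l]
  · simp
  · intro b _ hb
    rw [Pi.single_eq_of_ne hb, zero_mul]
  · intro h
    exact absurd (Finset.mem_range.2 (Nat.lt_succ_self l)) h

/-- The linear functional on `F ^ r` with coefficients `c`, as a map over the prime field. -/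
noncomputable def P {r : ℕ} (c : Fin r → F) : (Fin r → F) →ₗ[ZMod 3] F :=
  ∑ l, (LinearMap.mulLeft (ZMod 3) (c l)).comp (LinearMap.proj l)

theorem P_apply {r : ℕ} (c w : Fin r → F) : P c w = ∑ l, c l * w l := by
  simp [P, LinearMap.sum_apply]

theorem P_st {r : ℕ} (c : Fin r → F) (U : Submodule (ZMod 3) F) (M : U →ₗ[ZMod 3] ZMod 3)
    (hc : ∀ u : U, ∑ l, c l * (u : F) ^ 3 ^ (l : ℕ) = algebraMap (ZMod 3) F (M u)) (u v : U) :
    P c (st r (u : F) v) = M v • (u : F) + M u • (v : F) := by
  rw [P_apply, Algebra.smul_def, Algebra.smul_def, ← hc, ← hc, Finset.sum_mul, Finset.sum_mul,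
    ← Finset.sum_add_distrib]
  apply Finset.sum_congr rfl
  intro l _
  simp only [st]
  ring

/-- Separation of the elements of `U × F ^ r` by homomorphisms. -/
theorem sep {r : ℕ} (U : Submodule (ZMod 3) F) [Module.Finite (ZMod 3) U]
    (hU : Module.finrank (ZMod 3) U ≤ r) (d1 : F) (d2 : Fin r → F)
    (hd : d1 ≠ 0 ∨ d2 ≠ 0) :
    ∃ (f g : F →ₗ[ZMod 3] ZMod 3) (h : (Fin r → F) →ₗ[ZMod 3] ZMod 3),
      (∀ u ∈ U, ∀ v ∈ U, h (st r u v) = f u * f v) ∧ (f d1 ≠ 0 ∨ g d1 + h d2 ≠ 0) := by
  classical
  by_cases h1 : d1 = 0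
  swap
  · obtain ⟨g, hg, -⟩ := Submodule.exists_dual_map_eq_bot_of_notMem (R := ZMod 3) (M := F)
      (p := ⊥) (x := d1) (by simpa using h1) inferInstance
    exact ⟨0, g, 0, by simp, Or.inr (by simpa using hg)⟩
  have h2 : d2 ≠ 0 := by
    rcases hd with h | h
    · exact absurd h1 h
    · exact h
  set T : Submodule (ZMod 3) (Fin r → F) :=
    Submodule.span (ZMod 3) {w | ∃ u v : U, w = st r (u : F) v} with hT
  by_cases h3 : d2 ∈ T
  swap
  · obtain ⟨g, hg, hg'⟩ := Submodule.exists_dual_map_eq_bot_of_notMem (R := ZMod 3)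
      (M := Fin r → F) (p := T) (x := d2) h3 inferInstance
    refine ⟨0, 0, g, ?_, Or.inr (by simpa using hg)⟩
    intro u hu v hv
    have : g (st r u v) ∈ T.map g :=
      Submodule.mem_map_of_mem (Submodule.subset_span ⟨⟨u, hu⟩, ⟨v, hv⟩, rfl⟩)
    rw [hg', Submodule.mem_bot] at this
    rw [this]
    simp
  -- the main case
  set e := Module.finBasis (ZMod 3) U with he
  choose c hc using fun i => exists_repr hU U e (e.coord i)
  have key : ∃ p : Fin (Module.finrank (ZMod 3) U) → U, (∀ i, P (c i) d2 = p i) ∧
      (∀ i j, e.coord j (p i) = e.coord i (p j)) ∧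
      (∀ l : Fin r, d2 l = ∑ i, (p i : F) * (e i : F) ^ 3 ^ (l : ℕ)) := by
    refine Submodule.span_induction (p := fun d _ => ∃ p : Fin (Module.finrank (ZMod 3) U) → U,
      (∀ i, P (c i) d = p i) ∧ (∀ i j, e.coord j (p i) = e.coord i (p j)) ∧
      (∀ l : Fin r, d l = ∑ i, (p i : F) * (e i : F) ^ 3 ^ (l : ℕ))) ?_ ?_ ?_ ?_ h3
    · rintro x ⟨u, v, rfl⟩
      refine ⟨fun i => e.coord i v • u + e.coord i u • v, fun i => ?_, fun i j => ?_, fun l => ?_⟩
      · rw [P_st (c i) U (e.coord i) (hc i) u v]
        simp
      · simp only [map_add, map_smul, smul_eq_mul]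
        ring
      · have hexp : ∀ w : U, (w : F) ^ 3 ^ (l : ℕ) =
            ∑ i, e.coord i w • (e i : F) ^ 3 ^ (l : ℕ) := by
          intro w
          have hw : (w : F) = ∑ i, e.coord i w • (e i : F) := by
            have h7 := congrArg (fun z : U => (z : F)) (e.sum_repr w)
            simp only [Submodule.coe_sum, Submodule.coe_smul] at h7
            exact h7.symm
          conv_lhs => rw [← fr_apply, hw, map_sum]
          apply Finset.sum_congr rfl
          intro i _
          rw [map_smul, fr_apply]
        simp only [st]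
        rw [hexp v, hexp u, Finset.mul_sum, Finset.sum_mul, ← Finset.sum_add_distrib]
        apply Finset.sum_congr rfl
        intro i _
        simp only [Submodule.coe_add, Submodule.coe_smul, Algebra.smul_def]
        ring
    · exact ⟨0, fun i => by simp, fun i j => by simp, fun l => by simp⟩
    · rintro x y _ _ ⟨p, hp1, hp2, hp3⟩ ⟨q, hq1, hq2, hq3⟩
      refine ⟨p + q, fun i => ?_, fun i j => ?_, fun l => ?_⟩
      · rw [map_add, hp1, hq1]; simp
      · rw [Pi.add_apply, Pi.add_apply, map_add, map_add, hp2, hq2]
      · rw [Pi.add_apply, hp3, hq3, ← Finset.sum_add_distrib]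
        apply Finset.sum_congr rfl
        intro i _
        simp only [Pi.add_apply, Submodule.coe_add]
        ring
    · rintro a x _ ⟨p, hp1, hp2, hp3⟩
      refine ⟨a • p, fun i => ?_, fun i j => ?_, fun l => ?_⟩
      · rw [map_smul, hp1]; simp
      · rw [Pi.smul_apply, Pi.smul_apply, map_smul, map_smul, hp2]
      · rw [Pi.smul_apply, hp3, Finset.smul_sum]
        apply Finset.sum_congr rfl
        intro i _
        simp only [Pi.smul_apply, Submodule.coe_smul, Algebra.smul_def]
        ring
  obtain ⟨p, hp1, hp2, hp3⟩ := key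
  -- some functional is nonzero
  have hM : ∃ (M : U →ₗ[ZMod 3] ZMod 3) (b : Fin r → F) (q : U),
      (∀ u : U, ∑ l, b l * (u : F) ^ 3 ^ (l : ℕ) = algebraMap (ZMod 3) F (M u)) ∧
      P b d2 = q ∧ M q ≠ 0 := by
    by_contra hno
    push Not at hno
    apply h2
    have hpz : ∀ j, p j = 0 := by
      have hdiag : ∀ i, e.coord i (p i) = 0 := fun i => hno (e.coord i) (c i) (p i) (hc i) (hp1 i)
      intro j
      have hco : ∀ i, e.coord i (p j) = 0 := by
        intro i
        have := hno (e.coord i + e.coord j) (c i + c j) (p i + p j)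
          (by
            intro u
            rw [LinearMap.add_apply, map_add, ← hc i u, ← hc j u, ← Finset.sum_add_distrib]
            apply Finset.sum_congr rfl
            intro l _
            simp only [Pi.add_apply]
            ring)
          (by
            rw [P_apply]
            simp only [Pi.add_apply, add_mul]
            rw [Finset.sum_add_distrib, ← P_apply, ← P_apply, hp1, hp1]
            rfl)
        rw [LinearMap.add_apply, map_add, map_add, hdiag i, hdiag j, hp2 i j] at this
        have h4 : (2 : ZMod 3) * e.coord i (p j) = 0 := by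
          rw [← this]; ring
        have h5 : (2 : ZMod 3) ≠ 0 := by decide
        exact (mul_eq_zero.1 h4).resolve_left h5
      have : e.repr (p j) = 0 := by
        ext i
        exact hco i
      exact (LinearEquiv.map_eq_zero_iff e.repr).1 this
    funext l
    rw [hp3 l]
    simp [hpz]
  obtain ⟨M, b, q, hb, hq, hMq⟩ := hM
  obtain ⟨M', hM'⟩ := LinearMap.exists_extend M
  have hM'u : ∀ u : U, M' (u : F) = M u := fun u => by rw [← hM']; rfl
  refine ⟨M', 0, -(M'.comp (P b)), ?_, Or.inr ?_⟩
  · intro u hu v hv
    rw [LinearMap.neg_apply, LinearMap.comp_apply, P_st b U M hb ⟨u, hu⟩ ⟨v, hv⟩]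
    rw [map_add, map_smul, map_smul]
    have e1 := hM'u ⟨u, hu⟩
    have e2 := hM'u ⟨v, hv⟩
    simp only at e1 e2
    rw [← e1, ← e2, smul_eq_mul, smul_eq_mul]
    generalize M' u = a
    generalize M' v = b
    revert a b
    decide
  · rw [LinearMap.zero_apply, zero_add, LinearMap.neg_apply, LinearMap.comp_apply, hq, hM'u q]
    exact neg_ne_zero.2 hMq

end Lin

/-! ### Transfer of quasi-identities in few variables -/

/-- All variables of the term have index below `r`. -/
def Term.Below (r : ℕ) : Term → Prop
  | .var i => i < r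
  | .zero => True
  | .add s t => s.Below r ∧ t.Below r
  | .neg s => s.Below r
  | .mul s t => s.Below r ∧ t.Below r

theorem Term.below_mono {r r' : ℕ} (h : r ≤ r') (t : Term) : t.Below r → t.Below r' := by
  induction t with
  | var i => intro (h1 : i < r); exact (lt_of_lt_of_le h1 h : i < r')
  | zero => exact fun _ => trivial
  | add s t hs ht => exact fun h1 => ⟨hs h1.1, ht h1.2⟩
  | neg s hs => exact fun h1 => hs h1
  | mul s t hs ht => exact fun h1 => ⟨hs h1.1, ht h1.2⟩

theorem Term.exists_below (t : Term) : ∃ r, t.Below r := by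
  induction t with
  | var i => exact ⟨i + 1, Nat.lt_succ_self i⟩
  | zero => exact ⟨0, trivial⟩
  | add s t hs ht =>
    obtain ⟨a, ha⟩ := hs
    obtain ⟨b, hb⟩ := ht
    exact ⟨max a b, s.below_mono (le_max_left a b) ha, t.below_mono (le_max_right a b) hb⟩
  | neg s hs => exact hs
  | mul s t hs ht =>
    obtain ⟨a, ha⟩ := hs
    obtain ⟨b, hb⟩ := ht
    exact ⟨max a b, s.below_mono (le_max_left a b) ha, t.below_mono (le_max_right a b) hb⟩

/-- All variables of the quasi-identity have index below `r`. -/
def QuasiId.Below (r : ℕ) (σ : QuasiId) : Prop :=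
  (∀ e ∈ σ.prem, e.1.Below r ∧ e.2.Below r) ∧ σ.concl.1.Below r ∧ σ.concl.2.Below r

theorem QuasiId.below_mono {r r' : ℕ} (h : r ≤ r') (σ : QuasiId) (hσ : σ.Below r) :
    σ.Below r' :=
  ⟨fun e he => ⟨e.1.below_mono h (hσ.1 e he).1, e.2.below_mono h (hσ.1 e he).2⟩,
    σ.concl.1.below_mono h hσ.2.1, σ.concl.2.below_mono h hσ.2.2⟩

theorem prem_below (L : List (Term × Term)) : ∃ r, ∀ e ∈ L, e.1.Below r ∧ e.2.Below r := by
  induction L with
  | nil => exact ⟨0, by simp⟩
  | cons a L ih =>
    obtain ⟨r, hr⟩ := ih
    obtain ⟨r1, h1⟩ := a.1.exists_below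
    obtain ⟨r2, h2⟩ := a.2.exists_below
    refine ⟨max r (max r1 r2), ?_⟩
    intro e he
    rcases List.mem_cons.1 he with rfl | he
    · exact ⟨Term.below_mono (by omega) _ h1, Term.below_mono (by omega) _ h2⟩
    · exact ⟨Term.below_mono (by omega) _ (hr e he).1, Term.below_mono (by omega) _ (hr e he).2⟩

theorem QuasiId.exists_below (σ : QuasiId) : ∃ r, σ.Below r := by
  obtain ⟨r, hr⟩ := prem_below σ.prem
  obtain ⟨r1, h1⟩ := σ.concl.1.exists_below
  obtain ⟨r2, h2⟩ := σ.concl.2.exists_below
  exact ⟨max r (max r1 r2),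
    fun e he => ⟨Term.below_mono (by omega) _ (hr e he).1, Term.below_mono (by omega) _ (hr e he).2⟩,
    Term.below_mono (by omega) _ h1, Term.below_mono (by omega) _ h2⟩

theorem finite_below (S : Set QuasiId) (hS : S.Finite) : ∃ r, ∀ σ ∈ S, σ.Below r := by
  induction S, hS using Set.Finite.induction_on with
  | empty => exact ⟨0, by simp⟩
  | insert _ _ ih =>
    rename_i a S _ _
    obtain ⟨r, hr⟩ := ih
    obtain ⟨r1, h1⟩ := a.exists_below
    refine ⟨max r r1, ?_⟩
    intro σ hσ
    rcases Set.mem_insert_iff.1 hσ with rfl | hσ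
    · exact σ.below_mono (le_max_right _ _) h1
    · exact σ.below_mono (le_max_left _ _) (hr σ hσ)

section Transfer

variable {F : Type} [Field F] [Algebra (ZMod 3) F] [CharP F 3]

/-- Every quasi-identity of `R` in at most `r` variables holds in `B F r`. -/
theorem transfer (r : ℕ) (σ : QuasiId) (hσ : σ.Below r) (hR : Holds R σ) : Holds (B F r) σ := by
  classical
  intro v hprem
  by_contra hne
  set U : Submodule (ZMod 3) F :=
    Submodule.span (ZMod 3) (Set.range fun i : Fin r => (v i).1) with hU
  have hfin : Module.Finite (ZMod 3) U :=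
    Module.Finite.iff_fg.2 (Submodule.fg_span (Set.finite_range _))
  have hrank : Module.finrank (ZMod 3) U ≤ r := by
    have := finrank_range_le_card (R := ZMod 3) (fun i : Fin r => (v i).1)
    rw [Fintype.card_fin] at this
    exact this
  have hmem : ∀ t : Term, t.Below r → (t.eval v).1 ∈ U := by
    intro t
    induction t with
    | var i =>
      intro h
      exact Submodule.subset_span ⟨⟨i, h⟩, rfl⟩
    | zero => intro _; exact U.zero_mem
    | add s t hs ht => intro h; exact U.add_mem (hs h.1) (ht h.2)
    | neg s hs => intro h; exact U.neg_mem (hs h)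
    | mul s t _ _ => intro _; exact U.zero_mem
  obtain ⟨f, g, h, hmul, hsep⟩ := sep U hrank
    (σ.concl.1.eval v - σ.concl.2.eval v).1 (σ.concl.1.eval v - σ.concl.2.eval v).2 (by
      by_contra hcon
      push Not at hcon
      exact hne (sub_eq_zero.1 (B_ext hcon.1 hcon.2)))
  set θ : B F r →+ R :=
    { toFun := fun x => (f x.1, g x.1 + h x.2)
      map_zero' := by
        apply R_ext
        · exact map_zero f
        · change g (0 : B F r).1 + h (0 : B F r).2 = 0
          rw [B_zero1, B_zero2, map_zero, map_zero, add_zero]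
      map_add' := by
        intro x y
        apply R_ext
        · exact map_add f x.1 y.1
        · change g (x + y).1 + h (x + y).2 = (g x.1 + h x.2) + (g y.1 + h y.2)
          rw [B_add1, B_add2, map_add, map_add]
          ring } with hθ
  have hθm : ∀ x y : B F r, x.1 ∈ U → y.1 ∈ U → θ (x * y) = θ x * θ y := by
    intro x y hx hy
    apply R_ext
    · exact map_zero f
    · change g (x * y).1 + h (x * y).2 = f x.1 * f y.1
      rw [B_mul1, B_mul2, map_zero, zero_add, hmul _ hx _ hy]
  have hev : ∀ t : Term, t.Below r → θ (t.eval v) = t.eval (fun i => θ (v i)) := by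
    intro t
    induction t with
    | var i => intro _; rfl
    | zero => intro _; exact map_zero θ
    | add s t hs ht =>
      intro h'
      change θ (s.eval v + t.eval v) = _ + _
      rw [map_add, hs h'.1, ht h'.2]
    | neg s hs =>
      intro h'
      change θ (- s.eval v) = - _
      rw [map_neg, hs h']
    | mul s t hs ht =>
      intro h'
      change θ (s.eval v * t.eval v) = _ * _
      rw [hθm _ _ (hmem s h'.1) (hmem t h'.2), hs h'.1, ht h'.2]
  have h1 := hR (fun i => θ (v i)) (by
    intro e he
    rw [← hev _ (hσ.1 e he).1, ← hev _ (hσ.1 e he).2, hprem e he])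
  rw [← hev _ hσ.2.1, ← hev _ hσ.2.2] at h1
  have h2 : θ (σ.concl.1.eval v - σ.concl.2.eval v) = 0 := by
    rw [map_sub, h1, sub_self]
  rcases hsep with h3 | h3
  · exact h3 (congrArg Prod.fst h2)
  · exact h3 (congrArg Prod.snd h2)

end Transfer

/-! ### Homomorphisms from B to R kill all products -/

section Kill

variable {F : Type} [Field F] [Finite F] [Algebra (ZMod 3) F]

theorem trace_pow (y : F) (n : ℕ) :
    Algebra.trace (ZMod 3) F (y ^ 3 ^ n) = Algebra.trace (ZMod 3) F y := by
  have h1 : ∀ y : F, Algebra.trace (ZMod 3) F (y ^ 3) = Algebra.trace (ZMod 3) F y := by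
    intro y
    have := Algebra.trace_eq_of_algEquiv (FiniteField.frobeniusAlgEquivOfAlgebraic (ZMod 3) F) y
    rw [← this]
    simp [ZMod.card]
  induction n with
  | zero => simp
  | succ n ih => rw [pow_succ, pow_mul, h1, ih]

theorem exists_trace (f : F →ₗ[ZMod 3] ZMod 3) :
    ∃ c : F, ∀ y, f y = Algebra.trace (ZMod 3) F (c * y) := by
  have hB := traceForm_nondegenerate (ZMod 3) F
  refine ⟨((Algebra.traceForm (ZMod 3) F).toDual hB).symm f, fun y => ?_⟩
  have := LinearMap.BilinForm.apply_toDual_symm_apply (hB := hB) f y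
  rw [Algebra.traceForm_apply] at this
  exact this.symm

theorem trace_zero {y : F} (h : ∀ v : F, Algebra.trace (ZMod 3) F (y * v) = 0) : y = 0 := by
  have hB := traceForm_nondegenerate (ZMod 3) F
  exact hB.1 y (fun v => by rw [Algebra.traceForm_apply]; exact h v)

theorem pow_surj (n : ℕ) : Function.Surjective (fun v : F => v ^ 3 ^ n) := by
  have : CharP F 3 := charP_of_injective_algebraMap (algebraMap (ZMod 3) F).injective 3
  have h1 : Function.Injective (fun v : F => v ^ 3 ^ n) := by
    intro a b hab
    have h2 : fr n (a - b) = 0 := by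
      rw [map_sub, fr_apply, fr_apply]
      exact sub_eq_zero.2 hab
    rw [fr_apply] at h2
    exact sub_eq_zero.1 (pow_eq_zero_iff (by positivity) |>.1 h2)
  exact Finite.surjective_of_injective h1

/-- The coefficients of the polynomial in the proof below. -/
def coef (R : ℕ) (c : ℕ → F) (j : ℕ) : F :=
  (if j ≤ R then c (R - j) ^ 3 ^ j else 0) + (if R ≤ j then c (j - R) ^ 3 ^ R else 0)

theorem kill {R : ℕ} (hk : 2 * R + 1 < Module.finrank (ZMod 3) F)
    (M : F →ₗ[ZMod 3] ZMod 3) (ν : (Fin (R + 1) → F) →ₗ[ZMod 3] ZMod 3)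
    (h : ∀ u v : F, ν (st (R + 1) u v) = M u * M v) : ∀ u v, M u * M v = 0 := by
  classical
  have hfinite : Module.Finite (ZMod 3) F := inferInstance
  choose c' hc' using fun l : Fin (R + 1) =>
    exists_trace (ν.comp (LinearMap.single (ZMod 3) (fun _ => F) l))
  set c : ℕ → F := fun l => if hl : l < R + 1 then c' ⟨l, hl⟩ else 0 with hc
  have hν : ∀ w : Fin (R + 1) → F,
      ν w = ∑ l : Fin (R + 1), Algebra.trace (ZMod 3) F (c l * w l) := by
    intro w
    have hw : w = ∑ l, Pi.single l (w l) := (Finset.univ_sum_single w).symm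
    conv_lhs => rw [hw, map_sum]
    apply Finset.sum_congr rfl
    intro l _
    have h6 := hc' l (w l)
    rw [LinearMap.comp_apply, LinearMap.single_apply] at h6
    have h7 : c l = c' l := by
      rw [hc]
      exact dif_pos l.2
    rw [h7, ← h6]
  -- the sum as one trace
  have hsum : ∀ u v : F, ν (st (R + 1) u v) =
      Algebra.trace (ZMod 3) F (lin (2 * R + 1) (coef R c) u * v ^ 3 ^ R) := by
    intro u v
    rw [hν, lin_apply]
    have h1 : ∀ l : Fin (R + 1), Algebra.trace (ZMod 3) F (c l * st (R + 1) u v l) =
        Algebra.trace (ZMod 3) F (c l ^ 3 ^ (R - (l : ℕ)) * u ^ 3 ^ (R - (l : ℕ)) * v ^ 3 ^ R) +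
        Algebra.trace (ZMod 3) F (c l ^ 3 ^ R * u ^ 3 ^ ((l : ℕ) + R) * v ^ 3 ^ R) := by
      intro l
      have hl : (l : ℕ) ≤ R := Nat.lt_succ_iff.1 l.2
      simp only [st]
      rw [mul_add, map_add]
      congr 1
      · rw [← trace_pow (c l * (u * v ^ 3 ^ (l : ℕ))) (R - l)]
        congr 1
        rw [mul_pow, mul_pow, ← pow_mul, ← pow_add, Nat.add_sub_cancel' hl]
        ring
      · rw [← trace_pow (c l * (u ^ 3 ^ (l : ℕ) * v)) R]
        congr 1
        rw [mul_pow, mul_pow, ← pow_mul, ← pow_add]
        ring
    rw [Finset.sum_congr rfl (fun l _ => h1 l), Finset.sum_add_distrib, ← map_sum, ← map_sum,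
      ← map_add, ← Finset.sum_mul, ← Finset.sum_mul, ← add_mul]
    congr 2
    simp only [coef, add_mul]
    rw [Finset.sum_add_distrib]
    congr 1
    · rw [← Finset.sum_range (fun l => c l ^ 3 ^ (R - l) * u ^ 3 ^ (R - l)),
        ← Finset.sum_range_reflect]
      have h3 : Finset.range (R + 1) ⊆ Finset.range (2 * R + 1) := by
        intro i hi
        rw [Finset.mem_range] at *
        omega
      rw [← Finset.sum_subset h3]
      · apply Finset.sum_congr rfl
        intro j hj
        have hj' : j ≤ R := Nat.lt_succ_iff.1 (Finset.mem_range.1 hj)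
        rw [if_pos hj']
        have e1 : R + 1 - 1 - j = R - j := by omega
        have e2 : R - (R - j) = j := by omega
        rw [e1, e2]
      · intro j _ hj
        rw [Finset.mem_range] at hj
        rw [if_neg (by omega), zero_mul]
    · rw [← Finset.sum_range (fun l => c l ^ 3 ^ R * u ^ 3 ^ (l + R))]
      have e3 : 2 * R + 1 = R + (R + 1) := by ring
      rw [e3, Finset.sum_range_add
        (fun x => (if R ≤ x then c (x - R) ^ 3 ^ R else 0) * u ^ 3 ^ x) R (R + 1)]
      rw [Finset.sum_eq_zero (s := Finset.range R), zero_add]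
      · apply Finset.sum_congr rfl
        intro j _
        rw [if_pos (Nat.le_add_right R j), Nat.add_sub_cancel_left, Nat.add_comm j R]
      · intro j hj
        rw [Finset.mem_range] at hj
        rw [if_neg (by omega), zero_mul]
  -- all coefficients vanish
  have hker : ∀ u ∈ LinearMap.ker M, lin (2 * R + 1) (coef R c) u = 0 := by
    intro u hu
    apply trace_zero
    intro v
    obtain ⟨v', rfl⟩ := pow_surj R v
    rw [← hsum, h, LinearMap.mem_ker.1 hu, zero_mul]
  have hcard : 3 ^ (2 * R + 1 - 1) < Nat.card (LinearMap.ker M) := by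
    rw [Module.natCard_eq_pow_finrank (K := ZMod 3)]
    have h8 := LinearMap.finrank_range_add_finrank_ker M
    have h9 : Module.finrank (ZMod 3) (LinearMap.range M) ≤ 1 := by
      have := Submodule.finrank_le (LinearMap.range M)
      rwa [Module.finrank_self] at this
    simp only [Nat.card_zmod]
    exact Nat.pow_lt_pow_right (by norm_num) (by omega)
  have hcoef := lin_zero (coef R c) (LinearMap.ker M) hcard hker
  have hpow : ∀ (x : F) (n : ℕ), x ^ 3 ^ n = 0 → x = 0 := fun x n hx =>
    pow_eq_zero_iff (by positivity) |>.1 hx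
  have : CharP F 3 := charP_of_injective_algebraMap (algebraMap (ZMod 3) F).injective 3
  have hc0 : ∀ l : ℕ, l < R + 1 → c l = 0 := by
    intro l hl
    have h10 := hcoef (l + R) (by omega)
    unfold coef at h10
    rw [if_pos (Nat.le_add_left R l), Nat.add_sub_cancel] at h10
    rcases Nat.eq_zero_or_pos l with h0 | h0
    · subst h0
      rw [if_pos (by omega), zero_add, Nat.sub_self] at h10
      have h11 : (2 : F) * c 0 ^ 3 ^ R = 0 := by rw [← h10]; ring
      have h12 : (2 : F) ≠ 0 := by
        intro h13
        have h14 : ((2 : ℕ) : F) = 0 := by exact_mod_cast h13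
        rw [CharP.cast_eq_zero_iff F 3] at h14
        omega
      exact hpow _ _ ((mul_eq_zero.1 h11).resolve_left h12)
    · rw [if_neg (by omega), zero_add] at h10
      exact hpow _ _ h10
  intro u v
  rw [← h, hν]
  apply Finset.sum_eq_zero
  intro l _
  rw [hc0 l l.2, zero_mul, map_zero]

end Kill

/-! ### The quasi-identity given by the tables of a finite ring -/

section Diagram

variable (A : Type) [NonUnitalNonAssocRing A] [Fintype A]

/-- The tables of addition and multiplication of `A`, with conclusion `b = 0`. -/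
noncomputable def diag (e : A → ℕ) (b : A) : QuasiId where
  prem := ((Finset.univ : Finset (A × A)).toList.map fun p =>
      (Term.add (Term.var (e p.1)) (Term.var (e p.2)), Term.var (e (p.1 + p.2)))) ++
    ((Finset.univ : Finset (A × A)).toList.map fun p =>
      (Term.mul (Term.var (e p.1)) (Term.var (e p.2)), Term.var (e (p.1 * p.2))))
  concl := (Term.var (e b), Term.zero)

variable {A}

theorem diag_holds {C : Type} [NonUnitalNonAssocRing C] (e : A → ℕ) (b : A)
    (h : ∀ θ : A → C, (∀ x y, θ (x + y) = θ x + θ y) → (∀ x y, θ (x * y) = θ x * θ y) →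
      θ b = 0) : Holds C (diag A e b) := by
  intro v hv
  refine h (fun x => v (e x)) ?_ ?_
  · intro x y
    have := hv (Term.add (Term.var (e x)) (Term.var (e y)), Term.var (e (x + y))) (by
      apply List.mem_append_left
      rw [List.mem_map]
      exact ⟨(x, y), by simp, rfl⟩)
    exact this.symm
  · intro x y
    have := hv (Term.mul (Term.var (e x)) (Term.var (e y)), Term.var (e (x * y))) (by
      apply List.mem_append_right
      rw [List.mem_map]
      exact ⟨(x, y), by simp, rfl⟩)
    exact this.symm

theorem diag_fails (e : A → ℕ) (he : Function.Injective e) (b : A) (hb : b ≠ 0) :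
    ¬ Holds A (diag A e b) := by
  intro h
  have hinv : ∀ x, Function.invFun e (e x) = x := Function.leftInverse_invFun he
  have h1 := h (Function.invFun e) (by
    intro p hp
    rcases List.mem_append.1 hp with hp | hp
    · rw [List.mem_map] at hp
      obtain ⟨⟨x, y⟩, -, rfl⟩ := hp
      change Function.invFun e (e x) + Function.invFun e (e y) = Function.invFun e (e (x + y))
      rw [hinv, hinv, hinv]
    · rw [List.mem_map] at hp
      obtain ⟨⟨x, y⟩, -, rfl⟩ := hp
      change Function.invFun e (e x) * Function.invFun e (e y) = Function.invFun e (e (x * y))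
      rw [hinv, hinv, hinv])
  change Function.invFun e (e b) = 0 at h1
  rw [hinv] at h1
  exact hb h1

end Diagram

/-! ### The theorem -/

theorem R_mul_mul (x y z : R) : (x * y) * z = 0 ∧ z * (x * y) = 0 := by
  constructor
  · apply R_ext
    · rfl
    · change (0 : ZMod 3) * z.1 = 0
      rw [zero_mul]
  · apply R_ext
    · rfl
    · change z.1 * (0 : ZMod 3) = 0
      rw [mul_zero]

theorem R_comm (x y : R) : x * y = y * x := by
  apply R_ext
  · rfl
  · exact mul_comm x.1 y.1

theorem R_alternative : IsAlternative R := by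
  intro x y
  rw [(R_mul_mul x x y).1, (R_mul_mul x y x).2, (R_mul_mul y x x).1, (R_mul_mul x x y).2]
  exact ⟨rfl, rfl⟩

theorem R_jordan : IsJordan R := by
  intro x y
  refine ⟨R_comm x y, ?_⟩
  rw [(R_mul_mul x x y).1, zero_mul, (R_mul_mul x x (y * x)).1]

theorem R_no_basis : ¬ HasFiniteBasis R := by
  rintro ⟨S, hS, hS1, hS2⟩
  obtain ⟨r, hr⟩ := finite_below S hS
  have : Fact (Nat.Prime 3) := ⟨Nat.prime_three⟩
  let F := GaloisField 3 (2 * r + 2)
  have : Finite F := inferInstance
  have hrank : Module.finrank (ZMod 3) F = 2 * r + 2 := GaloisField.finrank 3 (by omega)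
  have : Finite (B F (r + 1)) := inferInstanceAs (Finite (F × (Fin (r + 1) → F)))
  have : Fintype (B F (r + 1)) := Fintype.ofFinite _
  have hB : ∀ σ ∈ S, Holds (B F (r + 1)) σ := fun σ hσ =>
    transfer (r + 1) σ (σ.below_mono (Nat.le_succ r) (hr σ hσ)) (hS1 σ hσ)
  obtain ⟨e, he⟩ := exists_injective_nat (B F (r + 1))
  set b : B F (r + 1) := mkB (0 : F) (st (r + 1) (1 : F) 1) with hb
  have hbne : b ≠ 0 := by
    intro h0
    have h1 : st (r + 1) (1 : F) 1 = 0 := congrArg Prod.snd h0
    have h2 := congrFun h1 0
    simp only [st, one_pow, mul_one, Pi.zero_apply] at h2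
    have h3 : ((2 : ℕ) : F) = 0 := by
      rw [← h2]; norm_num
    rw [CharP.cast_eq_zero_iff F 3] at h3
    omega
  apply diag_fails e he b hbne
  apply hS2 _ _ _ hB
  apply diag_holds
  intro θ hadd hmul
  have hθ0 : θ (mkB 0 0) = 0 := by
    have := hadd 0 0
    rw [add_zero] at this
    exact (left_eq_add.1 this)
  set M : F →+ ZMod 3 :=
    { toFun := fun u => (θ (mkB u 0)).1
      map_zero' := congrArg Prod.fst hθ0
      map_add' := by
        intro u v
        rw [← R_add1, ← hadd]
        congr 2 } with hM
  set ν : (Fin (r + 1) → F) →+ ZMod 3 :=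
    { toFun := fun w => (θ (mkB 0 w)).2
      map_zero' := congrArg Prod.snd hθ0
      map_add' := by
        intro u v
        rw [← R_add2, ← hadd]
        congr 2 } with hν
  have hprod : ∀ u v : F, θ (mkB (0 : F) (st (r + 1) u v)) =
      ((0 : ZMod 3), M u * M v) := by
    intro u v
    exact hmul (mkB u 0) (mkB v 0)
  have hkill := kill (R := r) (by rw [hrank]; omega) (M.toZModLinearMap 3) (ν.toZModLinearMap 3)
    (fun u v => congrArg Prod.snd (hprod u v))
  rw [hb, hprod]
  apply R_ext
  · rfl
  · exact hkill 1 1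

/-- There is a finite ring, alternative and Jordan at the same time, without a finite basis of
quasi-identities. -/
theorem result : ∃ (A : Type) (_ : NonUnitalNonAssocRing A), Finite A ∧ IsAlternative A ∧
    IsJordan A ∧ ¬ HasFiniteBasis A :=
  ⟨R, inferInstance, inferInstance, R_alternative, R_jordan, R_no_basis⟩

end Pool.Agent.Results.MP_db5ef1_al.NoFiniteBasis
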